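import Pool.Agent.R153.SpProd

set_option autoImplicit false

namespace Pool.Agent.Results.MP_80d245_co.SquaredContents

open Pool.Agent.R153.Sp PowerSeries
open scoped PowerSeries.WithPiTopology

/-- `S_sp(n)`: the sum over the partitions of `n` of the product of `(c_sp / h)^2`. -/
noncomputable def Ssp (n : ℕ) : ℚ := ∑ μ ∈ diagrams n, ∏ c ∈ μ.cells, (csp μ c / hook μ c) ^ 2

/-- `S_O(n)`: the sum over the partitions of `n` of the product of `(c_O / h)^2`. -/
noncomputable def SO (n : ℕ) : ℚ := ∑ μ ∈ diagrams n, ∏ c ∈ μ.cells, (cO μ c / hook μ c) ^ 2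

theorem hasProd_restricted : HasProd (fun j : ℕ => ((1 - X ^ (4 * (j + 1) - 2))⁻¹ : PowerSeries ℚ))
    (PowerSeries.mk fun n => ((Nat.Partition.restricted n (fun x => x % 4 = 2)).card : ℚ)) := by
  have h := Nat.Partition.hasProd_powerSeriesMk_card_restricted ℚ (fun x => x % 4 = 2)
  have hinj : Function.Injective (fun j : ℕ => 4 * j + 1) := fun a b hab => by
    simp only at hab; omega
  rw [← Function.Injective.hasProd_iff hinj] at h
  · have e : (fun j : ℕ => ((1 - X ^ (4 * (j + 1) - 2))⁻¹ : PowerSeries ℚ)) =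
        ((fun i : ℕ => if (i + 1) % 4 = 2 then ∑' k : ℕ, (X : PowerSeries ℚ) ^ ((i + 1) * k)
          else 1) ∘ fun j => 4 * j + 1) := by
      ext1 j
      simp only [Function.comp]
      rw [if_pos (by omega)]
      have e1 : 4 * (j + 1) - 2 = 4 * j + 1 + 1 := by omega
      rw [e1]
      have h1 : PowerSeries.constantCoeff (X ^ (4 * j + 1 + 1) : PowerSeries ℚ) = 0 := by simp
      have h2 := PowerSeries.WithPiTopology.tsum_pow_mul_one_sub_of_constantCoeff_eq_zero h1
      have h3 : (∑' k : ℕ, (X : PowerSeries ℚ) ^ ((4 * j + 1 + 1) * k)) =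
          ∑' k : ℕ, (X ^ (4 * j + 1 + 1)) ^ k := by
        simp only [pow_mul]
      have h4 : PowerSeries.constantCoeff (1 - X ^ (4 * j + 1 + 1) : PowerSeries ℚ) ≠ 0 := by
        simp
      rw [h3, PowerSeries.inv_eq_iff_mul_eq_one h4, h2]
    rw [e]
    exact h
  · intro x hx
    rw [if_neg]
    intro hcon
    apply hx
    exact ⟨x / 4, by simp only; omega⟩

theorem result :
    HasProd (fun j : ℕ => ((1 - X ^ (4 * (j + 1) - 2))⁻¹ : PowerSeries ℚ)) (PowerSeries.mk Ssp) ∧
    HasProd (fun j : ℕ => ((1 - X ^ (4 * (j + 1) - 2))⁻¹ : PowerSeries ℚ)) (PowerSeries.mk SO) := by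
  have h1 : Ssp = fun n => ((Nat.Partition.restricted n (fun x => x % 4 = 2)).card : ℚ) := by
    ext n; exact sum_prod_sq n
  have h2 : SO = fun n => ((Nat.Partition.restricted n (fun x => x % 4 = 2)).card : ℚ) := by
    ext n; exact sum_prod_sq_O n
  rw [h1, h2]
  exact ⟨hasProd_restricted, hasProd_restricted⟩

end Pool.Agent.Results.MP_80d245_co.SquaredContents
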